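import Pool.Agent.Helper22.FSU.Approx
import Mathlib.NumberTheory.Padics.PadicVal.Basic

/-! An exponential lower bound for the distance between `n!` and S-units, for all large `n`. -/

namespace Pool.Agent.Results.MP_f5847d_nt.ExponentialLower

open Pool.Agent.Helper22.FSU Finset

theorem val_factorial_lower {p n : ℕ} (hp : p.Prime) (hn : 1 ≤ n) :
    Real.exp ((n : ℝ) * (Real.log p / ((p : ℝ) - 1))) ≤
      (p : ℝ) ^ (padicValNat p n.factorial) * (p * n) := by
  haveI : Fact p.Prime := ⟨hp⟩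
  have h1 := sub_one_mul_padicValNat_factorial (p := p) n
  set v := padicValNat p n.factorial with hv
  have hsum : (p.digits n).sum ≤ (p - 1) * (Nat.log p n + 1) := by
    have hlen : (p.digits n).length = Nat.log p n + 1 := Nat.digits_len p n hp.one_lt (by omega)
    rw [← hlen, mul_comm, ← smul_eq_mul]
    apply List.sum_le_card_nsmul
    intro d hd
    have := Nat.digits_lt_base hp.one_lt hd
    omega
  have hsum2 : (p.digits n).sum ≤ n := Nat.digit_sum_le p n
  have h2 : n ≤ (p - 1) * (v + (Nat.log p n + 1)) := by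
    rw [mul_add]
    have : (p - 1) * v = n - (p.digits n).sum := h1
    omega
  have hp1 : (1 : ℝ) < p := by exact_mod_cast hp.one_lt
  have h3 : (n : ℝ) ≤ ((p : ℝ) - 1) * ((v : ℝ) + (Nat.log p n + 1)) := by
    have h4 : ((n : ℕ) : ℝ) ≤ (((p - 1) * (v + (Nat.log p n + 1)) : ℕ) : ℝ) := by exact_mod_cast h2
    push_cast [Nat.cast_sub hp.one_lt.le] at h4
    exact h4
  have hlogp : 0 < Real.log p := Real.log_pos hp1
  have h5 : (n : ℝ) * (Real.log p / ((p : ℝ) - 1)) ≤ ((v : ℝ) + (Nat.log p n + 1)) * Real.log p := by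
    rw [← mul_div_assoc, div_le_iff₀ (by linarith)]
    nlinarith
  have hp0 : (0 : ℝ) < p := by linarith
  calc Real.exp ((n : ℝ) * (Real.log p / ((p : ℝ) - 1)))
      ≤ Real.exp (((v : ℝ) + (Nat.log p n + 1)) * Real.log p) := Real.exp_le_exp.mpr h5
    _ = (p : ℝ) ^ v * ((p : ℝ) ^ (Nat.log p n) * p) := by
        rw [← pow_succ, ← pow_add, mul_comm, Real.exp_mul, Real.exp_log hp0]
        rw [← Real.rpow_natCast]; push_cast; ring_nf
    _ ≤ (p : ℝ) ^ v * (p * n) := by
        apply mul_le_mul_of_nonneg_left _ (by positivity)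
        rw [mul_comm]
        apply mul_le_mul_of_nonneg_left _ hp0.le
        exact_mod_cast Nat.pow_log_le_self p (show n ≠ 0 by omega)

theorem result (S : Finset ℕ) (hS : ∀ p ∈ S, Nat.Prime p) (c : ℝ)
    (hc : ∀ p ∈ S, c < Real.log p / ((p : ℝ) - 1)) :
    ∃ N : ℕ, ∀ n : ℕ, N ≤ n → ∀ k : ℕ → ℕ,
      (Nat.factorial n : ℝ) ≠ ∏ p ∈ S, (p : ℝ) ^ (k p) →
        Real.exp (c * (n : ℝ)) < |(Nat.factorial n : ℝ) - ∏ p ∈ S, (p : ℝ) ^ (k p)| := by
  classical
  -- a uniform gap
  obtain ⟨δ, hδ0, hδ⟩ : ∃ δ : ℝ, 0 < δ ∧ ∀ p ∈ S, c + δ ≤ Real.log p / ((p : ℝ) - 1) := by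
    rcases S.eq_empty_or_nonempty with hE | hE
    · exact ⟨1, one_pos, by simp [hE]⟩
    · obtain ⟨q, hq, hmin⟩ := Finset.exists_min_image S
        (fun p : ℕ => Real.log p / ((p : ℝ) - 1)) hE
      exact ⟨Real.log q / ((q : ℝ) - 1) - c, by linarith [hc q hq],
        fun p hp => by linarith [hmin p hp]⟩
  set Pr := ∏ p ∈ S, (p : ℝ) with hPr
  have hPr1 : 1 ≤ Pr := by
    have h1 : 1 ≤ ∏ p ∈ S, p := Finset.one_le_prod' fun p hp => (hS p hp).one_lt.le
    have h2 : ((1 : ℕ) : ℝ) ≤ ((∏ p ∈ S, p : ℕ) : ℝ) := Nat.cast_le.mpr h1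
    rwa [Nat.cast_one, Nat.cast_prod] at h2
  have hplePr : ∀ p ∈ S, (p : ℝ) ≤ Pr := by
    intro p hp
    have h1 : p ∣ ∏ q ∈ S, q := Finset.dvd_prod_of_mem _ hp
    have h2 : p ≤ ∏ q ∈ S, q :=
      Nat.le_of_dvd (Finset.prod_pos fun q hq => (hS q hq).pos) h1
    rw [hPr, ← Nat.cast_prod]
    exact_mod_cast h2
  set σ := Real.log Pr with hσ
  have hσ0 : 0 ≤ σ := Real.log_nonneg hPr1
  set N := ⌈Real.exp (|c| + σ + 3)⌉₊ + ⌈(σ + |Real.log (δ / 4)| + 1) * (2 / δ)⌉₊ + 3 with hN
  refine ⟨N, fun n hn k hne => ?_⟩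
  have hn3 : 3 ≤ n := by omega
  have hnr : (3 : ℝ) ≤ n := by exact_mod_cast hn3
  have hlogn : |c| + σ + 3 ≤ Real.log n := by
    rw [Real.le_log_iff_exp_le (by linarith)]
    have h2 := Nat.le_ceil (Real.exp (|c| + σ + 3))
    have h3 : (⌈Real.exp (|c| + σ + 3)⌉₊ : ℝ) ≤ n := by
      have : ⌈Real.exp (|c| + σ + 3)⌉₊ ≤ n := by omega
      exact_mod_cast this
    linarith
  have hfac : (0 : ℝ) < n.factorial := by exact_mod_cast n.factorial_pos
  have hlow := fact_lower n (by omega)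
  have hlog2 := Real.log_two_lt_d9
  have hbig : ∀ b : ℝ, b ≤ |c| + σ → 2 * Real.exp (b * n) < n.factorial := by
    intro b hb
    refine lt_of_lt_of_le ?_ hlow
    have h2e : (2 : ℝ) ≤ Real.exp 1 := by
      have := Real.add_one_le_exp (1 : ℝ); linarith
    calc 2 * Real.exp (b * n) ≤ Real.exp 1 * Real.exp (b * n) := by gcongr
      _ = Real.exp (1 + b * n) := by rw [← Real.exp_add]
      _ < Real.exp ((n : ℝ) * Real.log n - n) := by
          apply Real.exp_lt_exp.mpr
          nlinarith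
  have hi : 2 * Real.exp (c * n) < n.factorial := hbig c (by linarith [le_abs_self c])
  have hii : 2 * Pr ^ n < n.factorial := by
    have h1 := hbig σ (by linarith [abs_nonneg c])
    rwa [Real.exp_mul, Real.exp_log (by linarith), Real.rpow_natCast] at h1
  by_contra hcon
  push Not at hcon
  set P := su S k with hP
  have hPcast : ∏ p ∈ S, (p : ℝ) ^ (k p) = (P : ℝ) := (su_cast S k).symm
  rw [hPcast] at hcon hne
  have hPge : (n.factorial : ℝ) / 2 < P := by
    have := le_abs_self ((n.factorial : ℝ) - P)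
    linarith
  -- some prime of `S` has a large exponent
  obtain ⟨p, hp, hvk⟩ : ∃ p ∈ S, padicValNat p n.factorial ≤ k p := by
    by_contra hno
    push Not at hno
    have h1 : (P : ℝ) ≤ Pr ^ n := by
      rw [← hPcast, hPr, ← Finset.prod_pow]
      refine Finset.prod_le_prod (fun p _ => by positivity) fun p hp => ?_
      apply pow_le_pow_right₀
      · exact_mod_cast (hS p hp).one_lt.le
      · have h2 := hno p hp
        haveI : Fact p.Prime := ⟨hS p hp⟩
        have h3 := sub_one_mul_padicValNat_factorial (p := p) n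
        have h4 : 1 ≤ p - 1 := by have := (hS p hp).two_le; omega
        have h5 : padicValNat p n.factorial ≤ (p - 1) * padicValNat p n.factorial :=
          Nat.le_mul_of_pos_left _ h4
        omega
    linarith
  have hpp := hS p hp
  set v := padicValNat p n.factorial with hv
  have hd1 : p ^ v ∣ n.factorial := pow_padicValNat_dvd
  have hd2 : p ^ v ∣ P := by
    rw [hP]; unfold su
    exact (pow_dvd_pow p hvk).trans (Finset.dvd_prod_of_mem (fun q => q ^ k q) hp)
  have hdz : ((p ^ v : ℕ) : ℤ) ∣ ((n.factorial : ℤ) - (P : ℤ)) :=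
    dvd_sub (Int.natCast_dvd_natCast.mpr hd1) (Int.natCast_dvd_natCast.mpr hd2)
  have hnez : ((n.factorial : ℤ) - (P : ℤ)) ≠ 0 := by
    intro h
    apply hne
    have h1 : (n.factorial : ℤ) = (P : ℤ) := by linarith
    exact_mod_cast h1
  have hle : ((p ^ v : ℕ) : ℤ) ≤ |(n.factorial : ℤ) - (P : ℤ)| :=
    Int.le_of_dvd (abs_pos.mpr hnez) ((dvd_abs _ _).mpr hdz)
  have hler : (p : ℝ) ^ v ≤ |(n.factorial : ℝ) - P| := by
    have h1 : (((p ^ v : ℕ) : ℤ) : ℝ) ≤ ((|(n.factorial : ℤ) - (P : ℤ)| : ℤ) : ℝ) := by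
      exact_mod_cast hle
    push_cast at h1
    exact h1
  -- the lower bound for the prime power
  have hval := val_factorial_lower hpp (show 1 ≤ n by omega)
  have hp0 : (0 : ℝ) < p := by exact_mod_cast hpp.pos
  have hlogp : Real.log p ≤ σ := Real.log_le_log hp0 (hplePr p hp)
  have hnlog : Real.log n ≤ δ * n / 4 - 1 + |Real.log (δ / 4)| := by
    have h1 := Real.log_le_sub_one_of_pos (show 0 < δ / 4 * n by positivity)
    rw [Real.log_mul (by positivity) (by linarith)] at h1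
    have h2 := neg_abs_le (Real.log (δ / 4))
    linarith
  have hnbig : (σ + |Real.log (δ / 4)| + 1) * (2 / δ) ≤ n := by
    have h2 := Nat.le_ceil ((σ + |Real.log (δ / 4)| + 1) * (2 / δ))
    have h3 : (⌈(σ + |Real.log (δ / 4)| + 1) * (2 / δ)⌉₊ : ℝ) ≤ n := by
      have : ⌈(σ + |Real.log (δ / 4)| + 1) * (2 / δ)⌉₊ ≤ n := by omega
      exact_mod_cast this
    linarith
  have hnbig2 : σ + |Real.log (δ / 4)| + 1 ≤ δ * n / 2 := by
    have h1 : (σ + |Real.log (δ / 4)| + 1) * 2 ≤ n * δ := by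
      have h4 := mul_le_mul_of_nonneg_right hnbig hδ0.le
      have h5 : (σ + |Real.log (δ / 4)| + 1) * (2 / δ) * δ = (σ + |Real.log (δ / 4)| + 1) * 2 := by
        field_simp
      rw [h5] at h4; exact h4
    linarith
  have hfinal : Real.exp (c * n) * (p * n) < Real.exp ((n : ℝ) * (Real.log p / ((p : ℝ) - 1))) := by
    have h1 : (p * n : ℝ) = Real.exp (Real.log p + Real.log n) := by
      rw [Real.exp_add, Real.exp_log hp0, Real.exp_log (by linarith)]
    rw [h1, ← Real.exp_add]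
    apply Real.exp_lt_exp.mpr
    have h2 := hδ p hp
    have h3 : (c + δ) * n ≤ n * (Real.log p / ((p : ℝ) - 1)) := by nlinarith
    have h4 : (0 : ℝ) < δ * n := by positivity
    nlinarith
  have hpn : (0 : ℝ) < p * n := by positivity
  have h1 : Real.exp (c * n) * (p * n) < (p : ℝ) ^ v * (p * n) := lt_of_lt_of_le hfinal hval
  have h2 := lt_of_mul_lt_mul_right h1 hpn.le
  linarith

end Pool.Agent.Results.MP_f5847d_nt.ExponentialLower
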