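import Pool.Agent.Helper43.RP.Main

/-! Let `S` be a finite set of primes. (1) There is `M` such that for every `0 < C ≤ 1/2` there is `B`
such that the number of integers `n` in `[Y, X]` for which some S-unit lies within `exp (C n log n)` of
`n!` is at most `B + M log (log X / log Y) / log (1/C)`. (2) For every `C < 1` the number of these
integers is at most `M' (1 + log (log X / log Y))` with `M'` depending on `S` and `C`. -/

namespace Pool.Agent.Results.MP_f5847d_nt.VanishingDensity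

open Pool.Agent.Helper22.FSU

theorem result (S : Finset ℕ) (hS : ∀ p ∈ S, Nat.Prime p) :
    (∃ M : ℝ, ∀ C : ℝ, 0 < C → C ≤ 1 / 2 → ∃ B : ℝ, ∀ Y X : ℕ, 2 ≤ Y → Y ≤ X →
      (({n : ℕ | Y ≤ n ∧ n ≤ X ∧ ∃ k : ℕ → ℕ,
          |(Nat.factorial n : ℝ) - ∏ p ∈ S, (p : ℝ) ^ (k p)| ≤
            Real.exp (C * (n : ℝ) * Real.log (n : ℝ))}.ncard : ℕ) : ℝ) ≤
        B + M * (Real.log (Real.log X / Real.log Y) / Real.log (1 / C))) ∧
    (∀ C : ℝ, C < 1 → ∃ M : ℝ, ∀ Y X : ℕ, 2 ≤ Y → Y ≤ X →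
      (({n : ℕ | Y ≤ n ∧ n ≤ X ∧ ∃ k : ℕ → ℕ,
          |(Nat.factorial n : ℝ) - ∏ p ∈ S, (p : ℝ) ^ (k p)| ≤
            Real.exp (C * (n : ℝ) * Real.log (n : ℝ))}.ncard : ℕ) : ℝ) ≤
        M * (1 + Real.log (Real.log X / Real.log Y))) := by
  constructor
  · obtain ⟨M, hM⟩ := Pool.Agent.Helper43.RP.count2 S hS
    refine ⟨M, fun C hC hC2 => ?_⟩
    obtain ⟨B, hB⟩ := hM C hC hC2
    refine ⟨B, fun Y X hY hX => ?_⟩
    have h := hB Y X hY hX
    simpa only [Near, su_cast] using h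
  · intro C hC
    obtain ⟨M, hM⟩ := Pool.Agent.Helper50.FE.count S hS C hC
    refine ⟨M, fun Y X hY hX => ?_⟩
    have h := hM Y X hY hX
    simpa only [Near, su_cast] using h

end Pool.Agent.Results.MP_f5847d_nt.VanishingDensity
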